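import Pool.Agent.LibMC92.A1
import Pool.Agent.LibSS92.Di2
import Pool.Agent.LibBD92.Tr

/-!
For every function `g` (invariant or not): for some real `w` every `y` on a cone is computable from
`w` and `g y`, or for every `w` there is one real `t` that computes all reals which are computable
from `w` and `g y` for all `y` on a cone.  Hence an invariant function `f` is constant on a cone, or
`y ≤ w ⊕ f y` on a cone for some `w`, or for every `w`, all `x` on a cone and all `y` on a cone,
neither of `f x`, `f y` is computable from the other one and `w`; and the same up to any order
preserving `K`.  Moreover `w` can be any real that computes all elements of a set `D` without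
isolated points, if the values of `g` compute, on cones, all reals in the closure of `D`.  No
hypothesis for Borel functions (Borel determinacy is proved in `Pool.Agent.LibBD92`).
-/

namespace Pool.Agent.Results.MP_8f8af1_lc.Dichotomy

open MC92

theorem result :
    -- the Borel sets, or any sigma-algebra with determined games
    ∀ m : MeasurableSpace (ℕ → ℕ), (m = borel (ℕ → ℕ) ∨ Determinacy m) →
      -- all functions `g`
      (∀ g : X → X, Meas m g →
        (∃ w, Cone fun y => Red y (join w (g y))) ∨
          ∀ w, ∃ t, ∀ z, (Cone fun y => Red z (join w (g y))) → Red z t) ∧
      -- invariant functions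
      (∀ f K : X → X, Invariant f → Meas m f → Meas m (fun x => K (f x)) →
        (∀ z z', Red z z' → Red (K z) (K z')) →
        (∃ d, Cone fun x => Red (f x) d ∧ Red d (f x)) ∨
          (∃ w, Cone fun y => Red y (join w (K (f y)))) ∨
            ∀ w, Cone fun x => Cone fun y =>
              ¬ Red (f x) (join w (K (f y))) ∧ ¬ Red (f y) (join w (K (f x)))) ∧
      -- which `w`
      (∀ g : X → X, Meas m g → ∀ D : Set X, Preperfect D → D.Nonempty →
        (∀ z ∈ closure D, Cone fun y => Red z (g y)) →
        ∀ w : X, (∀ z ∈ D, Red z w) → Cone fun y => Red y (join w (g y))) := by
  intro m hm'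
  have hm : Determinacy m := BD92.determinacy_of hm'
  exact ⟨fun g hg => dichotomy_param hm hg,
    fun f K hf hfm hKm hK => param_trichotomy hm hf hfm hKm hK,
    fun g hg D hD hne h w hw => core_pre hm hg hD hne hw h⟩

end Pool.Agent.Results.MP_8f8af1_lc.Dichotomy
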