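import Pool.Agent.LibMC92.B4
import Pool.Agent.LibSS92.SS5
import Pool.Agent.LibBD92.Tr

/-!
If the value of an invariant function `f` at a join of `k + 2` reals is bounded by an order
preserving function of the reals and of the values at the joins of `k + 1` of them, then this
function bounds `f` on a cone; if it is computable from them, then `f` is constant on a cone or
the identity on a cone.  No hypothesis for Borel functions (Borel determinacy is proved in
`Pool.Agent.LibBD92`); the theorem of Slaman and Steel on regressive functions, used for the
second statement, is proved in `Pool.Agent.LibSS92`.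
-/

namespace Pool.Agent.Results.MP_8f8af1_lc.LocalGlobal

open MC92

theorem result :
    -- the Borel sets, or any sigma-algebra with determined games
    ∀ m : MeasurableSpace (ℕ → ℕ), (m = borel (ℕ → ℕ) ∨ Determinacy m) →
      ∀ f : X → X, Invariant f → Meas m f → ∀ (k : ℕ) (b : X),
        -- from local to global
        (∀ J : X → X, (∀ z z', Red z z' → Red (J z) (J z')) →
          (∀ y : Fin (k + 2) → X, (∀ j, Red b (y j)) →
            Red (f (joinF y)) (J (join (joinF y)
              (joinF fun i : Fin (k + 2) =>
                f (joinF fun j : Fin (k + 1) => y (i.succAbove j)))))) →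
          Cone fun x => Red (f x) (J x)) ∧
        -- `J` = identity: Part 1 of Martin's conjecture
        ((∀ y : Fin (k + 2) → X, (∀ j, Red b (y j)) →
            Red (f (joinF y)) (join (joinF y)
              (joinF fun i : Fin (k + 2) =>
                f (joinF fun j : Fin (k + 1) => y (i.succAbove j))))) →
          (∃ d, Cone fun x => Red (f x) d ∧ Red d (f x)) ∨
            Cone fun x => Red (f x) x ∧ Red x (f x)) ∧
        -- decomposition
        (Cone fun x => ∃ y : Fin (k + 2) → X,
          (∀ j, Red b (y j) ∧ Red (y j) x) ∧ Red x (joinF y) ∧
          ∀ i : Fin (k + 2), Red (f (joinF fun j : Fin (k + 1) => y (i.succAbove j))) x) := by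
  intro m hm' f hf hfm k b
  have hm : Determinacy m := BD92.determinacy_of hm'
  refine ⟨fun J hJ h => local_to_global hm hf hfm hJ k b h, fun h => ?_,
    decomposition hm hf hfm k b⟩
  have h1 : Cone fun x => Red (f x) x :=
    local_to_global hm hf hfm (J := fun x => x) (fun _ _ h => h) k b h
  rcases slaman_steel hm hf hfm h1 with h2 | h2
  · exact Or.inl h2
  · exact Or.inr (cone_and h1 h2)

end Pool.Agent.Results.MP_8f8af1_lc.LocalGlobal
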