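import Pool.Agent.LibMC92.A3
import Pool.Agent.LibBD92.Tr

/-!
Part 1 of Martin's conjecture: every Turing invariant function is constant on a cone, or increasing
on a cone, or for cofinally many `x` the values `f x` and `f y` are incomparable for all `y` on a
cone; with a version up to an arbitrary closure function `K`.  No hypothesis for Borel functions
(Borel determinacy is proved in `Pool.Agent.LibBD92`).
-/

namespace Pool.Agent.Results.MP_8f8af1_lc.Trichotomy

open MC92

theorem result :
    -- the Borel sets, or any sigma-algebra with determined games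
    ∀ m : MeasurableSpace (ℕ → ℕ), (m = borel (ℕ → ℕ) ∨ Determinacy m) →
      ∀ f K : X → X, Invariant f → Meas m f → Meas m (fun x => K (f x)) →
        (∀ z, Red z (K z)) → (∀ z z', Red z z' → Red (K z) (K z')) →
        -- `f` is constant on a cone
        ((∃ d, Cone fun x => Red (f x) d ∧ Red d (f x)) ∨
        -- or increasing on a cone, up to `K`
          (Cone fun x => Red x (K (K (f x)))) ∨
        -- or typical values of `f` are incomparable, up to `K`
          ((∀ b, ∃ x, Red b x ∧
              Cone fun y => ¬ Red (f x) (K (f y)) ∧ ¬ Red (f y) (K (f x))) ∧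
            (@MeasurableSet _ m {a | Cone fun y =>
                ¬ Red (f (bits a)) (K (f y)) ∧ ¬ Red (f y) (K (f (bits a)))} →
              Cone fun x =>
                Cone fun y => ¬ Red (f x) (K (f y)) ∧ ¬ Red (f y) (K (f x))))) := by
  intro m hm' f K hf hfm hKm hK1 hK2
  have hm : Determinacy m := BD92.determinacy_of hm'
  by_cases h1 : ∃ d, Cone fun x => Red (f x) d ∧ Red d (f x)
  · exact Or.inl h1
  by_cases h2 : Cone fun x => Red x (K (K (f x)))
  · exact Or.inr (Or.inl h2)
  refine Or.inr (Or.inr ⟨?_, fun hQ => ?_⟩)
  · rcases trichotomyK hm hf hfm hKm hK1 hK2 with h | h | h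
    · exact absurd h h1
    · exact absurd h h2
    · exact h
  · rcases trichotomyK_cone hm hf hfm hKm hK1 hK2 hQ with h | h | h
    · exact absurd h h1
    · exact absurd h h2
    · exact h

end Pool.Agent.Results.MP_8f8af1_lc.Trichotomy
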