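import Pool.Agent.LibMC92.E1
import Pool.Agent.LibBD92.Tr

/-!
Every real on a cone is computable from four values of a nonconstant invariant function, at points
above a given real, and any upper bound of the values on one interval of degrees.  No hypothesis
for Borel functions (Borel determinacy is proved in `Pool.Agent.LibBD92`).
-/

namespace Pool.Agent.Results.MP_8f8af1_lc.Values

open MC92

theorem result :
    -- the Borel sets, or any sigma-algebra with determined games
    ∀ m : MeasurableSpace (ℕ → ℕ), (m = borel (ℕ → ℕ) ∨ Determinacy m) →
      ∀ f : X → X, Invariant f → Meas m f →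
        (¬ ∃ d, Cone fun x => Red (f x) d ∧ Red d (f x)) →
        ∀ b : X, ∃ s : X, Red b s ∧
          ∀ w : X, (∀ u, Red b u → Red u s → Red (f u) w) →
            Cone fun y => ∃ u : Bool → Bool → X,
              (∀ i j, Red b (u i j) ∧ Red (u i j) y ∧ Red (f (u i j)) y) ∧
              Red y (join w (join (join (f (u false false)) (f (u false true)))
                (join (f (u true false)) (f (u true true))))) :=
  fun _ hm _ hf hfm hnc b => four_values (BD92.determinacy_of hm) hf hfm hnc b

end Pool.Agent.Results.MP_8f8af1_lc.Values
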